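import Pool.Agent.AT6.Stmts1
import Pool.Agent.Helper25_KF.Idm
import Pool.Agent.Helper20_AT8.HKX
import Pool.Agent.Helper94_PP.LemQ

/-!
# Squad AT6, row CPL: the sum of the diagonal entries over `V`
-/

open scoped BigOperators

noncomputable section

namespace Pool.Agent.PP.T6.H81

open Pool.Agent.Helper51_AWC Pool.Agent.Helper79_WRA Pool.Agent.PP Pool.Agent.PP.KF
open Pool.Agent.PP.K9 Pool.Agent.PP.K9.H97 Pool.Agent.PP.H75 Pool.Agent.PP.T3 Pool.Agent.PP.T2

attribute [local instance] Ideal.Quotient.field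

/-- the value of a character in `e` at `g e^` -/
theorem fv_eh {M : Ideal (integralClosure ℤ ℂ)} [M.IsMaximal] {G : Type} [Group G] [Finite G]
    {e : G → FF M} (he : IsIdem e) {χ : G → ℂ} (hχ : χ ∈ IrrE M e) (g : G) :
    T8.fv (eh M e) g χ = χ g := by
  classical
  have := Fintype.ofFinite G
  have h1 := (((KF.H25.idm M G e he).2.2 χ hχ.1) (fun t => if t = g then 1 else 0)).1 hχ.2
  have h2 : chv (fun t => if t = g then (1 : ℂ) else 0) χ = χ g := by
    unfold chv
    rw [finsum_eq_sum_of_fintype]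
    simp
  rw [h2] at h1
  rw [← h1]
  unfold T8.fv chv
  rw [finsum_eq_sum_of_fintype, finsum_eq_sum_of_fintype]
  have h3 : ∀ t : G, mulF (eh M e) (fun t => if t = g then (1 : ℂ) else 0) t = eh M e (t * g⁻¹) := by
    intro t
    rw [mulF, finsum_eq_sum_of_fintype, Finset.sum_eq_single (t * g⁻¹)]
    · have e : (t * g⁻¹)⁻¹ * t = g := by group
      rw [e, if_pos rfl, mul_one]
    · intro u _ hu
      rw [if_neg, mul_zero]
      intro h
      apply hu
      rw [← h]
      group
    · intro h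
      exact absurd (Finset.mem_univ _) h
  refine Fintype.sum_equiv (Equiv.mulRight g) _ _ fun t => ?_
  rw [h3, Equiv.coe_mulRight, mul_inv_cancel_right, irr_mul_comm hχ.1]

theorem card_mul_relIndex {G : Type} [Group G] {A B : Subgroup G} (h : A ≤ B) :
    Nat.card A * A.relIndex B = Nat.card B := by
  rw [← Subgroup.relIndex_bot_left, ← Subgroup.relIndex_bot_left,
    Subgroup.relIndex_mul_relIndex _ _ _ bot_le h]

theorem cpl (sec : SecStmt) (ips : IpsStmt) : CplStmt := by
  intro ℓ hℓ M _ hM G _ _ e V γ hL b hb χ hχ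
  classical
  have := Fintype.ofFinite G
  have hcl : ∀ x y, χ (y * x * y⁻¹) = χ x := fun x y => irr_conj hχ.1 x y
  have hid : IsIdem e := hL.blk.1
  have hG : (Nat.card G : ℂ) ≠ 0 := by exact_mod_cast Nat.card_pos.ne'
  set S : Finset G := Finset.univ.filter (fun v => v ∈ V) with hS
  have hsum : ∀ F : G → ℂ, ∑ᶠ (v : G) (_ : v ∈ V), F v = ∑ v ∈ S, F v := by
    intro F
    rw [← finsum_mem_coe_finset]
    refine finsum_congr fun c => ?_
    simp [hS]
  have hel : ∀ v ∈ V, El ℓ v := by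
    intro v hv
    obtain ⟨k, hk⟩ := hL.tp.pg ⟨v, hv⟩
    exact ⟨k, by simpa using congrArg Subtype.val hk⟩
  -- the first relation
  have h1 : (Nat.card G : ℂ) = ∑ v ∈ S, wt V γ v * ((Nat.card G : ℂ) * Pm M ℓ v (b v) χ χ) := by
    have e1 : (Nat.card G : ℂ) = ∑ g : G, χ g * starRingEnd ℂ (χ g) := by
      rw [Nat.card_eq_fintype_card, ← irr_orth_self hχ.1]
      refine Finset.sum_congr rfl fun g _ => ?_
      rw [H94.irr_star hχ.1]
    have e2 : ∀ g : G, χ g * starRingEnd ℂ (χ g) =
        ∑ v ∈ S, wt V γ v * (sv M ℓ v (b v) χ g * starRingEnd ℂ (χ g)) := by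
      intro g
      have e3 := sec ℓ M hM G e V γ hL b hb χ hcl g
      rw [fv_eh hid hχ, hsum] at e3
      have e5 : ∑ v ∈ S, wt V γ v * (sv M ℓ v (b v) χ g * starRingEnd ℂ (χ g)) =
          (∑ v ∈ S, wt V γ v * sv M ℓ v (b v) χ g) * starRingEnd ℂ (χ g) := by
        rw [Finset.sum_mul]
        refine Finset.sum_congr rfl fun v _ => ?_
        ring
      rw [e5, ← e3]
    rw [Finset.sum_congr rfl fun g _ => e2 g, Finset.sum_comm] at e1
    conv_lhs => rw [e1]
    refine Finset.sum_congr rfl fun v hv => ?_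
    have hvV : v ∈ V := (Finset.mem_filter.1 hv).2
    rw [← Finset.mul_sum]
    congr 1
    have e4 := ips ℓ M hM G v (hel v hvV) (b v) (hb v hvV).blk.ix χ χ hcl hcl
    rw [finsum_eq_sum_of_fintype] at e4
    rw [e4]
  have h2 : (1 : ℂ) = ∑ v ∈ S, wt V γ v * Pm M ℓ v (b v) χ χ := by
    have e1 : (Nat.card G : ℂ) * 1 =
        (Nat.card G : ℂ) * ∑ v ∈ S, wt V γ v * Pm M ℓ v (b v) χ χ := by
      rw [Finset.mul_sum, mul_one]
      conv_lhs => rw [h1]
      refine Finset.sum_congr rfl fun v _ => ?_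
      ring
    exact mul_left_cancel₀ hG e1
  have hle := T8.H20.cen_le_Tg hL.gam
  have h3 : ∀ v ∈ V, (((Subgroup.centralizer (V : Set G)).relIndex (Tg V γ ⊓ Cu v) : ℕ) : ℂ) =
      ix V γ * wt V γ v := by
    intro v hv
    have hle2 : Subgroup.centralizer (V : Set G) ≤ Tg V γ ⊓ Cu v := by
      refine le_inf hle ?_
      intro c hc
      exact Subgroup.mem_centralizer_iff.2 fun x hx => by
        rw [Set.mem_singleton_iff.1 hx]
        exact (Subgroup.mem_centralizer_iff.1 hc) v hv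
    have e1 : (Subgroup.centralizer (V : Set G)).relIndex (Tg V γ ⊓ Cu v) *
        Nat.card (Subgroup.centralizer (V : Set G)) = Nat.card (Tg V γ ⊓ Cu v : Subgroup G) := by
      rw [mul_comm]
      exact card_mul_relIndex hle2
    have e2 : ix V γ * Nat.card (Subgroup.centralizer (V : Set G)) = Nat.card (Tg V γ) := by
      rw [mul_comm]
      exact card_mul_relIndex hle
    unfold wt
    rw [← e1, ← e2]
    push_cast
    have e3 : (Nat.card (Subgroup.centralizer (V : Set G)) : ℂ) ≠ 0 := by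
      exact_mod_cast Nat.card_pos.ne'
    have e4 : (ix V γ : ℂ) ≠ 0 := by
      have : Nat.card (Tg V γ) ≠ 0 := Nat.card_pos.ne'
      rw [← e2] at this
      exact_mod_cast left_ne_zero_of_mul this
    field_simp
  rw [hsum]
  calc ∑ v ∈ S, Mm M ℓ V γ v (b v) χ χ
      = ∑ v ∈ S, (Nat.card V : ℂ) * ix V γ * (wt V γ v * Pm M ℓ v (b v) χ χ) := by
        refine Finset.sum_congr rfl fun v hv => ?_
        unfold Mm
        rw [h3 v (Finset.mem_filter.1 hv).2]
        ring
    _ = _ := by rw [← Finset.mul_sum, ← h2, mul_one]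

end Pool.Agent.PP.T6.H81
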