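import Pool.Agent.AT6.Stmts3
import Pool.Agent.Helper45_AT5.KER

/-!
# Squad AT6, row PGR: coordinates of the functions `s ↦ gv M (Cu v) (w s) b χ`
-/

open scoped BigOperators

noncomputable section

namespace Pool.Agent.PP.T6.H81

open Pool.Agent.Helper51_AWC Pool.Agent.Helper79_WRA Pool.Agent.PP Pool.Agent.PP.KF
open Pool.Agent.PP.K9 Pool.Agent.PP.K9.H97 Pool.Agent.PP.H75 Pool.Agent.PP.T3 Pool.Agent.PP.T2

attribute [local instance] Ideal.Quotient.field

/-- a sum over the regular elements of a subgroup -/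
theorem sum_reg {G : Type} [Group G] [Finite G] (ℓ : ℕ) (C : Subgroup G) (F : G → ℂ) :
    ∑ᶠ (s : G) (_ : s ∈ C ∧ Reg ℓ s), F s = ∑ᶠ (s : C) (_ : Reg ℓ s), F s := by
  classical
  have := Fintype.ofFinite C
  have h4 : ∑ᶠ (c : G) (_ : c ∈ C ∧ Reg ℓ c), F c =
      ∑ᶠ c : G, (if c ∈ C ∧ Reg ℓ c then F c else 0) :=
    finsum_congr fun c => finsum_eq_if
  have h5 : ∑ᶠ (c : C) (_ : Reg ℓ c), F c =
      ∑ᶠ c : C, (if Reg ℓ c then F c else 0) :=
    finsum_congr fun c => finsum_eq_if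
  rw [h4, h5, H75.sum_sub C _ (fun x hx => if_neg fun h => hx h.1)]
  refine finsum_congr fun c => ?_
  have h6 : Reg ℓ (c : G) ↔ Reg ℓ c := by
    unfold Reg
    rw [Subgroup.orderOf_coe]
  by_cases hc : Reg ℓ c
  · rw [if_pos hc, if_pos ⟨c.2, h6.2 hc⟩]
  · rw [if_neg hc, if_neg fun h => hc (h6.1 h.2)]

theorem pgr (dim : DimStmt) : PgrStmt := by
  intro ℓ hℓ M _ hM G _ _ v b hb
  classical
  have := Fintype.ofFinite G
  have := Fintype.ofFinite (Cu v)
  set C : Subgroup G := Cu v with hC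
  set b' : C → FF M := fun t => b t with hb'
  obtain ⟨Q, hQ1, hQ2⟩ := dim ℓ M hM C b' hb.idem
  refine ⟨fun i => H75.ext0 C (Q i), ?_, ?_⟩
  · intro i k
    rw [sum_reg ℓ C (fun s => H75.ext0 C (Q i) s * starRingEnd ℂ (H75.ext0 C (Q k) s))]
    have h1 := hQ1 i k
    unfold T5.rip at h1
    rw [← h1]
    congr 1
    refine finsum_congr fun s => finsum_congr fun _ => ?_
    rw [ext0_apply, ext0_apply]
  · intro w hw χ hχ
    set S := (K9.H25.irrE_finite M b').toFinset with hS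
    have hmem : ∀ κ, κ ∈ S ↔ κ ∈ IrrE M b' := fun κ => Set.Finite.mem_toFinset _
    -- the coefficients
    set a : (C → ℂ) → ℂ := fun κ => (Nat.card C : ℂ)⁻¹ *
      ∑ᶠ (c : G) (_ : c ∈ C ∧ Reg ℓ c), starRingEnd ℂ (H75.ext0 C κ c) * χ (w * c) with ha
    have h1 : ∀ s : C, Reg ℓ s → gv M C (w * s) b χ = ∑ κ ∈ S, a κ * κ s := by
      intro s hs
      rw [T5.H45.ker ℓ M hM G v w hw b hb s s.2 (T3.H62.reg_coe hs) χ hχ]
      have h2 : ∀ c : G, T5.kr M C b s c * χ (w * c) =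
          ∑ κ ∈ S, κ s * (starRingEnd ℂ (H75.ext0 C κ c) * χ (w * c)) := by
        intro c
        unfold T5.kr
        rw [finsum_mem_eq_finite_toFinset_sum _ (K9.H25.irrE_finite M b'), Finset.sum_mul]
        refine Finset.sum_congr rfl fun κ _ => ?_
        rw [ext0_apply, mul_assoc]
      have h3 : ∑ᶠ (c : G) (_ : c ∈ C ∧ Reg ℓ c), T5.kr M C b s c * χ (w * c) =
          ∑ κ ∈ S, κ s * ∑ᶠ (c : G) (_ : c ∈ C ∧ Reg ℓ c),
            starRingEnd ℂ (H75.ext0 C κ c) * χ (w * c) := by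
        have e1 : ∀ F : G → ℂ, ∑ᶠ (c : G) (_ : c ∈ C ∧ Reg ℓ c), F c =
            ∑ c ∈ Finset.univ.filter (fun c : G => c ∈ C ∧ Reg ℓ c), F c := by
          intro F
          rw [← finsum_mem_coe_finset]
          refine finsum_congr fun c => ?_
          simp
        rw [e1]
        rw [Finset.sum_congr rfl fun c _ => h2 c, Finset.sum_comm]
        refine Finset.sum_congr rfl fun κ _ => ?_
        rw [e1, Finset.mul_sum]
      rw [h3, Finset.mul_sum]
      refine Finset.sum_congr rfl fun κ _ => ?_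
      simp only [ha]
      ring
    -- the products with the basis
    have h2 : ∀ i, (Nat.card C : ℂ)⁻¹ * ∑ᶠ (s' : G) (_ : s' ∈ C ∧ Reg ℓ s'),
        gv M C (w * s') b χ * starRingEnd ℂ (H75.ext0 C (Q i) s') =
        ∑ κ ∈ S, a κ * T5.rip ℓ κ (Q i) := by
      intro i
      rw [sum_reg ℓ C (fun s' => gv M C (w * s') b χ * starRingEnd ℂ (H75.ext0 C (Q i) s'))]
      have e1 : ∀ F : C → ℂ, ∑ᶠ (c : C) (_ : Reg ℓ c), F c =
          ∑ c ∈ Finset.univ.filter (fun c : C => Reg ℓ c), F c := by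
        intro F
        rw [← finsum_mem_coe_finset]
        refine finsum_congr fun c => ?_
        simp
      rw [e1]
      have e2 : ∀ s' ∈ Finset.univ.filter (fun c : C => Reg ℓ c),
          gv M C (w * s') b χ * starRingEnd ℂ (H75.ext0 C (Q i) s') =
          ∑ κ ∈ S, a κ * (κ s' * starRingEnd ℂ (Q i s')) := by
        intro s' hs'
        rw [h1 s' (Finset.mem_filter.1 hs').2, ext0_apply, Finset.sum_mul]
        refine Finset.sum_congr rfl fun κ _ => ?_
        ring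
      rw [Finset.sum_congr rfl e2, Finset.sum_comm, Finset.mul_sum]
      refine Finset.sum_congr rfl fun κ _ => ?_
      unfold T5.rip
      rw [e1, ← Finset.mul_sum]
      ring
    intro s hs hsr
    have hsr' : Reg ℓ (⟨s, hs⟩ : C) := by
      unfold Reg at hsr ⊢
      rwa [← Subgroup.orderOf_coe]
    have h3 := h1 ⟨s, hs⟩ hsr'
    have h4 : ∀ κ ∈ S, a κ * κ ⟨s, hs⟩ = ∑ i, a κ * T5.rip ℓ κ (Q i) * Q i ⟨s, hs⟩ := by
      intro κ hκ
      rw [hQ2 κ ((hmem κ).1 hκ) _ hsr', Finset.mul_sum]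
      refine Finset.sum_congr rfl fun i _ => ?_
      ring
    rw [Finset.sum_congr rfl h4, Finset.sum_comm] at h3
    rw [h3]
    refine Finset.sum_congr rfl fun i _ => ?_
    rw [h2 i, Finset.sum_mul]
    refine Finset.sum_congr rfl fun κ _ => ?_
    have e5 : H75.ext0 C (Q i) s = Q i ⟨s, hs⟩ := ext0_apply C (Q i) ⟨s, hs⟩
    change _ = a κ * T5.rip ℓ κ (Q i) * H75.ext0 C (Q i) s
    rw [e5]

end Pool.Agent.PP.T6.H81
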